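import Pool.Agent.helper76.UF.Spec

set_option autoImplicit false

/-! # Row CPR of project UF: the elements `a - x^t` and `a - x^s` are coprime -/

namespace Pool.Agent.UF

open Finset Polynomial NumberField

lemma CPR_nat (m c t s : ℕ) (hts : t < s) (hd : ¬ 2 ^ (m + 1) ∣ s - t) :
    Nat.Coprime ((2 ^ (2 ^ c)) ^ s - (2 ^ (2 ^ c)) ^ t) ((2 ^ (2 ^ c)) ^ (2 ^ m) + 1) := by
  obtain ⟨a, ha⟩ : ∃ a : ℕ, a = 2 ^ (2 ^ c) := ⟨_, rfl⟩
  rw [← ha]
  have ha0 : 0 < a := by rw [ha]; positivity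
  obtain ⟨u, hu⟩ : ∃ u, s = t + u := ⟨s - t, by omega⟩
  have hu' : s - t = u := by omega
  rw [hu'] at hd
  have e1 : a ^ s - a ^ t = a ^ t * (a ^ u - 1) := by
    rw [hu, pow_add, Nat.mul_sub, mul_one]
  rw [e1]
  have h2 : Nat.Coprime 2 (a ^ (2 ^ m) + 1) := by
    rw [Nat.coprime_two_left]
    have h3 : Even (a ^ (2 ^ m)) := by
      rw [Nat.even_pow]
      refine ⟨?_, by positivity⟩
      rw [ha, Nat.even_pow]
      exact ⟨even_two, by positivity⟩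
    exact h3.add_one
  have h4 : Nat.Coprime a (a ^ (2 ^ m) + 1) := by
    conv_lhs => rw [ha]
    exact Nat.Coprime.pow_left _ h2
  apply Nat.Coprime.mul_left (Nat.Coprime.pow_left _ h4)
  by_contra hc
  obtain ⟨p, hp, hp1, hp2⟩ := Nat.Prime.not_coprime_iff_dvd.1 hc
  have : Fact p.Prime := ⟨hp⟩
  have hp3 : p ≠ 2 := by
    rintro rfl
    have h5 := Nat.Coprime.eq_one_of_dvd h2 hp2
    omega
  have h6 : ((a : ZMod p)) ^ (2 ^ m) = -1 := by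
    have : ((a ^ (2 ^ m) + 1 : ℕ) : ZMod p) = 0 := (ZMod.natCast_eq_zero_iff _ _).2 hp2
    push_cast at this
    exact eq_neg_of_add_eq_zero_left this
  have h7 : ((a : ZMod p)) ^ u = 1 := by
    have h8 : ((a ^ u - 1 : ℕ) : ZMod p) = 0 := (ZMod.natCast_eq_zero_iff _ _).2 hp1
    rw [Nat.cast_sub (Nat.one_le_pow _ _ ha0)] at h8
    push_cast at h8
    exact sub_eq_zero.1 h8
  have h9 : ¬ ((a : ZMod p)) ^ (2 ^ m) = 1 := by
    rw [h6]
    intro h10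
    have : Fact (2 < p) := ⟨lt_of_le_of_ne hp.two_le (Ne.symm hp3)⟩
    exact ZMod.neg_one_ne_one h10
  have h11 : ((a : ZMod p)) ^ (2 ^ (m + 1)) = 1 := by
    rw [pow_succ, pow_mul, h6]
    norm_num
  have h12 := orderOf_eq_prime_pow h9 h11
  apply hd
  rw [← h12]
  exact orderOf_dvd_of_pow_eq_one h7

lemma CPR_lt (m c : ℕ) (R : Type) [CommRing R] (x : R) (hx : x ^ (2 ^ m) = -1) (t s : ℕ) (ht : Odd t)
    (hts : t < s) (hd : ¬ 2 ^ (m + 1) ∣ s - t) :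
    IsCoprime (ff (2 ^ (2 ^ c)) x t) (ff (2 ^ (2 ^ c)) x s) := by
  have h0 := CPR_nat m c t s hts hd
  obtain ⟨a, ha⟩ : ∃ a : ℕ, a = 2 ^ (2 ^ c) := ⟨_, rfl⟩
  rw [← ha] at h0 ⊢
  have ha0 : 0 < a := by rw [ha]; positivity
  have h1 : IsCoprime (((a ^ s - a ^ t : ℕ) : ℤ)) ((a ^ (2 ^ m) + 1 : ℕ) : ℤ) :=
    Nat.isCoprime_iff_coprime.2 h0
  obtain ⟨U, V, hUV⟩ := h1
  have hle : a ^ t ≤ a ^ s := Nat.pow_le_pow_right ha0 hts.le
  rw [Nat.cast_sub hle] at hUV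
  have h2 : (U : R) * ((a : R) ^ s - (a : R) ^ t) + (V : R) * ((a : R) ^ (2 ^ m) + 1) = 1 := by
    have := congrArg (Int.cast : ℤ → R) hUV
    push_cast at this
    exact this
  obtain ⟨p, hp⟩ : ff a x t ∣ (a : R) ^ s - (x ^ t) ^ s := sub_dvd_pow_sub_pow _ _ _
  obtain ⟨q, hq⟩ : ff a x s ∣ (a : R) ^ t - (x ^ s) ^ t := sub_dvd_pow_sub_pow _ _ _
  obtain ⟨r, hr⟩ : ff a x t ∣ (a : R) ^ (2 ^ m) - (x ^ t) ^ (2 ^ m) := sub_dvd_pow_sub_pow _ _ _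
  have h3 : (x ^ t) ^ (2 ^ m) = -1 := by
    rw [← pow_mul, mul_comm t, pow_mul, hx, ht.neg_one_pow]
  have h4 : (x ^ t) ^ s = (x ^ s) ^ t := by
    rw [← pow_mul, ← pow_mul, mul_comm]
  rw [h3] at hr
  refine ⟨U * p + V * r, -(U * q), ?_⟩
  linear_combination h2 - (U : R) * hp + (U : R) * hq - (V : R) * hr + (U : R) * h4

theorem CPR : CPR_stmt := by
  intro m c R _ x hx t s ht hs hd
  rcases lt_trichotomy t s with h | h | h
  · apply CPR_lt m c R x hx t s ht h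
    intro h1
    apply hd
    have h2 : ((2 ^ (m + 1) : ℕ) : ℤ) ∣ ((s - t : ℕ) : ℤ) := by exact_mod_cast h1
    rw [Nat.cast_sub h.le] at h2
    push_cast at h2
    have h3 := (dvd_neg).2 h2
    rwa [neg_sub] at h3
  · exact absurd (by rw [h, sub_self]; exact dvd_zero _) hd
  · apply IsCoprime.symm
    apply CPR_lt m c R x hx s t hs h
    intro h1
    apply hd
    have h2 : ((2 ^ (m + 1) : ℕ) : ℤ) ∣ ((t - s : ℕ) : ℤ) := by exact_mod_cast h1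
    rw [Nat.cast_sub h.le] at h2
    push_cast at h2
    exact h2

end Pool.Agent.UF
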