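import Pool.Agent.helper76.UF.Spec

set_option autoImplicit false

/-! # Row TWA of project UF: elements with `w b(w) = 1` are powers of `y` -/

namespace Pool.Agent.UF

open Finset Polynomial NumberField

theorem TWA (h : CST_stmt) : TWA_stmt := by
  intro n R _ y b hn hy hb w hw
  obtain ⟨hB, hspan, -⟩ := hy
  obtain ⟨c, hc⟩ := hspan w
  have h1 : ∑ i ∈ range n, (((if i = 0 then 1 else 0 : ℤ)) : R) * y ^ i = 1 := by
    rw [Finset.sum_eq_single_of_mem 0 (Finset.mem_range.2 (by omega))]
    · simp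
    · intro i _ hi
      simp [hi]
  have h2 := h n R y b hn hB hb c (fun i => if i = 0 then 1 else 0) (by
    rw [← hc, hw, h1])
  simp only [if_true] at h2
  -- there is a nonzero coefficient
  have h3 : ∃ i ∈ range n, c i ≠ 0 := by
    by_contra hcon
    push Not at hcon
    rw [Finset.sum_eq_zero (fun i hi => by rw [hcon i hi]; norm_num)] at h2
    exact one_ne_zero h2
  obtain ⟨i, hi, hci⟩ := h3
  have h4 := Finset.add_sum_erase (range n) (fun i => (c i) ^ 2) hi
  have h5 : 0 ≤ ∑ j ∈ (range n).erase i, (c j) ^ 2 := Finset.sum_nonneg (fun j _ => sq_nonneg _)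
  have h6 : 1 ≤ (c i) ^ 2 := by
    have := pow_pos (abs_pos.2 hci) 2
    rw [sq_abs] at this
    omega
  have h7 : ∑ j ∈ (range n).erase i, (c j) ^ 2 = 0 := by
    omega
  have h8 : (c i) ^ 2 = 1 := by
    omega
  have h9 : ∀ j ∈ range n, j ≠ i → c j = 0 := by
    intro j hj hji
    have := (Finset.sum_eq_zero_iff_of_nonneg (fun j _ => sq_nonneg (c j))).1 h7 j
      (Finset.mem_erase.2 ⟨hji, hj⟩)
    exact pow_eq_zero_iff (two_ne_zero) |>.1 this
  have h10 : w = (c i : R) * y ^ i := by
    rw [hc]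
    exact Finset.sum_eq_single_of_mem i hi (fun j hj hji => by rw [h9 j hj hji]; simp)
  have h8' : c i = 1 ∨ c i = -1 := by
    have h12 : (c i - 1) * (c i + 1) = 0 := by linear_combination h8
    rcases mul_eq_zero.1 h12 with h13 | h13
    · left; omega
    · right; omega
  rcases h8' with h11 | h11
  · exact ⟨i, by rw [h10, h11]; simp⟩
  · refine ⟨i + n, ?_⟩
    rw [h10, h11, pow_add, hB.1]
    simp

end Pool.Agent.UF
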